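import Pool.Agent.Helper89.OS.St2

/-!
# Module ISO of project OS: isolating the principal block
-/

set_option autoImplicit false

namespace Pool.Agent.Helper76.OS

open Matrix ComplexConjugate Pool.Agent.Helper94.YF Pool.Agent.Helper94.YG Pool.Agent.Helper89.OS

/-- integral combinations of the characters -/
private def Good {I : Type} [Fintype I] [DecidableEq I] {p a : ℕ} (X : PD I p a)
    (h : I → ℂ) : Prop :=
  ∃ v : I → ℂ, (∀ k, IsIntegral ℤ (v k)) ∧ ∀ j, h j = ∑ k, v k * X.chi j k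

private lemma good_chi {I : Type} [Fintype I] [DecidableEq I] {p a : ℕ} (X : PD I p a) (k : I) :
    Good X (fun j => X.chi j k) := by
  refine ⟨fun l => if l = k then 1 else 0, fun l => ?_, fun j => ?_⟩
  · show IsIntegral ℤ (if l = k then (1 : ℂ) else 0)
    split_ifs
    · exact isIntegral_one
    · exact isIntegral_zero
  · simp

private lemma good_const {I : Type} [Fintype I] [DecidableEq I] {p a : ℕ} (X : PD I p a) (c : ℂ)
    (hc : IsIntegral ℤ c) : Good X (fun _ => c) := by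
  refine ⟨fun l => if l = X.o then c else 0, fun l => ?_, fun j => ?_⟩
  · show IsIntegral ℤ (if l = X.o then c else 0)
    split_ifs
    · exact hc
    · exact isIntegral_zero
  · simp [X.chi_o]

private lemma good_sub {I : Type} [Fintype I] [DecidableEq I] {p a : ℕ} (X : PD I p a)
    {f g : I → ℂ} (hf : Good X f) (hg : Good X g) : Good X (fun j => f j - g j) := by
  obtain ⟨v, hv, hfv⟩ := hf
  obtain ⟨w, hw, hgw⟩ := hg
  refine ⟨fun k => v k - w k, fun k => (hv k).sub (hw k), fun j => ?_⟩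
  show f j - g j = _
  rw [hfv j, hgw j, ← Finset.sum_sub_distrib]
  refine Finset.sum_congr rfl fun k _ => ?_
  ring

private lemma good_mul {I : Type} [Fintype I] [DecidableEq I] {p a : ℕ} (X : PD I p a)
    {f g : I → ℂ} (hf : Good X f) (hg : Good X g) : Good X (fun j => f j * g j) := by
  obtain ⟨v, hv, hfv⟩ := hf
  obtain ⟨w, hw, hgw⟩ := hg
  refine ⟨fun u => ∑ k, ∑ l, v k * w l * (X.N k l u : ℂ), fun u => ?_, fun j => ?_⟩
  · refine IsIntegral.sum _ fun k _ => IsIntegral.sum _ fun l _ => ?_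
    exact ((hv k).mul (hw l)).mul (by simpa using (isIntegral_algebraMap (R := ℤ) (A := ℂ) (x := (X.N k l u : ℤ))))
  · show f j * g j = _
    rw [hfv j, hgw j, Finset.sum_mul_sum]
    have h1 : ∀ k l, (v k * X.chi j k) * (w l * X.chi j l)
        = ∑ u, v k * w l * (X.N k l u : ℂ) * X.chi j u := by
      intro k l
      have h2 := X.chi_mul j k l
      calc (v k * X.chi j k) * (w l * X.chi j l) = v k * w l * (X.chi j k * X.chi j l) := by ring
        _ = v k * w l * ∑ u, (X.N k l u : ℂ) * X.chi j u := by rw [h2]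
        _ = _ := by
          rw [Finset.mul_sum]
          refine Finset.sum_congr rfl fun u _ => ?_
          ring
    simp_rw [h1]
    simp_rw [Finset.sum_mul]
    rw [Finset.sum_comm_cycle]

private lemma good_prod {I : Type} [Fintype I] [DecidableEq I] {p a : ℕ} (X : PD I p a)
    {J : Type} (T : Finset J) (f : J → I → ℂ) (hf : ∀ t ∈ T, Good X (f t)) :
    Good X (fun j => ∏ t ∈ T, f t j) := by
  classical
  induction T using Finset.induction_on with
  | empty =>
    simpa using good_const X 1 isIntegral_one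
  | insert t T ht ih =>
    have h1 := good_mul X (hf t (Finset.mem_insert_self t T))
      (ih fun s hs => hf s (Finset.mem_insert_of_mem hs))
    have h2 : (fun j => ∏ s ∈ insert t T, f s j) = fun j => f t j * ∏ s ∈ T, f s j := by
      funext j
      rw [Finset.prod_insert ht]
    rw [h2]
    exact h1

private lemma good_pow {I : Type} [Fintype I] [DecidableEq I] {p a : ℕ} (X : PD I p a)
    {f : I → ℂ} (hf : Good X f) (r : ℕ) : Good X (fun j => f j ^ r) := by
  induction r with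
  | zero => simpa using good_const X 1 isIntegral_one
  | succ r ih =>
    have h1 := good_mul X ih hf
    simpa [pow_succ] using h1

private lemma good_nhat {I : Type} [Fintype I] [DecidableEq I] {p a : ℕ} (X : PD I p a)
    {h : I → ℂ} (hh : Good X h) (i i' : I) :
    IsIntegral ℤ ((X.m : ℂ) ^ 2 / (p : ℂ) ^ 2 * ∑ j, conj (X.s j i) * h j * X.s j i') := by
  obtain ⟨v, hv, hhv⟩ := hh
  have h1 : (X.m : ℂ) ^ 2 / (p : ℂ) ^ 2 * ∑ j, conj (X.s j i) * h j * X.s j i'
      = ∑ k, v k * ((X.m : ℂ) ^ 2 / (p : ℂ) ^ 2 *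
        ∑ j, conj (X.s j i) * X.chi j k * X.s j i') := by
    have h2 : ∀ j, conj (X.s j i) * h j * X.s j i'
        = ∑ k, v k * (conj (X.s j i) * X.chi j k * X.s j i') := by
      intro j
      rw [hhv j, Finset.mul_sum, Finset.sum_mul]
      refine Finset.sum_congr rfl fun k _ => ?_
      ring
    simp_rw [h2]
    rw [Finset.sum_comm, Finset.mul_sum]
    refine Finset.sum_congr rfl fun k _ => ?_
    rw [← Finset.mul_sum]
    ring
  rw [h1]
  exact IsIntegral.sum _ fun k _ => (hv k).mul (X.nhat k i i')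

private lemma Q_neg {p : ℕ} {Q : ℂ → Prop} (hQ : PI p Q) {x : ℂ} (hx : Q x) : Q (-x) := by
  have h1 := hQ.mul (-1) x isIntegral_one.neg hx
  simpa using h1

private lemma nQ_prod {p : ℕ} {Q : ℂ → Prop} (hQ : PI p Q) (h1 : ¬ Q 1) {J : Type} (T : Finset J)
    (f : J → ℂ) (hi : ∀ t ∈ T, IsIntegral ℤ (f t)) (hn : ∀ t ∈ T, ¬ Q (f t)) :
    ¬ Q (∏ t ∈ T, f t) := by
  classical
  induction T using Finset.induction_on with
  | empty => simpa using h1
  | insert t T ht ih =>
    rw [Finset.prod_insert ht]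
    intro h2
    rcases hQ.prime _ _ (hi t (Finset.mem_insert_self t T))
      (IsIntegral.prod _ fun s hs => hi s (Finset.mem_insert_of_mem hs)) h2 with h3 | h3
    · exact hn t (Finset.mem_insert_self t T) h3
    · exact ih (fun s hs => hi s (Finset.mem_insert_of_mem hs))
        (fun s hs => hn s (Finset.mem_insert_of_mem hs)) h3

private lemma Q_prod_sub {p : ℕ} {Q : ℂ → Prop} (hQ : PI p Q) {J : Type} (T : Finset J)
    (f g : J → ℂ) (hf : ∀ t ∈ T, IsIntegral ℤ (f t)) (hg : ∀ t ∈ T, IsIntegral ℤ (g t))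
    (hn : ∀ t ∈ T, Q (f t - g t)) :
    Q (∏ t ∈ T, f t - ∏ t ∈ T, g t) := by
  classical
  induction T using Finset.induction_on with
  | empty => simpa using hQ.zero
  | insert t T ht ih =>
    rw [Finset.prod_insert ht, Finset.prod_insert ht]
    have h3 := ih (fun s hs => hf s (Finset.mem_insert_of_mem hs))
      (fun s hs => hg s (Finset.mem_insert_of_mem hs))
      (fun s hs => hn s (Finset.mem_insert_of_mem hs))
    have h4 := hQ.mul (f t) _ (hf t (Finset.mem_insert_self t T)) h3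
    have h5 := hQ.mul (∏ s ∈ T, g s) _
      (IsIntegral.prod _ fun s hs => hg s (Finset.mem_insert_of_mem hs))
      (hn t (Finset.mem_insert_self t T))
    have h6 := hQ.add _ _ h4 h5
    have h7 : f t * ∏ s ∈ T, f s - g t * ∏ s ∈ T, g s
        = f t * (∏ s ∈ T, f s - ∏ s ∈ T, g s) + (∏ s ∈ T, g s) * (f t - g t) := by ring
    rw [h7]
    exact h6

private lemma nQ_pow {p : ℕ} {Q : ℂ → Prop} (hQ : PI p Q) (h1 : ¬ Q 1) {x : ℂ}
    (hx : IsIntegral ℤ x) (hn : ¬ Q x) (r : ℕ) : ¬ Q (x ^ r) := by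
  induction r with
  | zero => simpa using h1
  | succ r ih =>
    rw [pow_succ]
    intro h2
    rcases hQ.prime _ _ (hx.pow r) hx h2 with h3 | h3
    · exact ih h3
    · exact hn h3

/-- Module ISO. -/
theorem hISO : StISO := by
  classical
  intro I _ _ p a X Q hQ i i'
  have hp1 : ¬ Q 1 := by
    intro h
    have h2 : Q ((1 : ℤ) : ℂ) := by simpa using h
    have h3 := (hQ.int_iff 1).1 h2
    have h4 : p ∣ 1 := by exact_mod_cast h3
    exact X.prime.one_lt.ne' (Nat.dvd_one.1 h4)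
  have hp0 : (p : ℂ) ≠ 0 := by exact_mod_cast X.prime.ne_zero
  -- membership in `B0`
  have hB : ∀ j, j ∈ B0 X Q ↔ ∀ k, Q (X.chi j k - X.d k) := by
    intro j
    simp [B0]
  have hd : ∀ k, IsIntegral ℤ ((X.d k : ℕ) : ℂ) := by
    intro k
    simpa using (isIntegral_algebraMap (R := ℤ) (A := ℂ) (x := (X.d k : ℤ)))
  have hex : ∀ j' : I, ∃ k, j' ∉ B0 X Q → ¬ Q (X.chi j' k - X.d k) := by
    intro j'
    by_cases h : j' ∈ B0 X Q
    · exact ⟨X.o, fun h' => absurd h h'⟩
    · rw [hB] at h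
      push Not at h
      obtain ⟨k, hk⟩ := h
      exact ⟨k, fun _ => hk⟩
  choose K hK using hex
  set T : Finset I := Finset.univ \ B0 X Q with hT
  have hTmem : ∀ j, j ∈ T ↔ j ∉ B0 X Q := by
    intro j
    simp [hT]
  set f : I → ℂ := fun j => ∏ j' ∈ T, (X.chi j (K j') - X.chi j' (K j')) with hf
  have hfint : ∀ j, IsIntegral ℤ (f j) := fun j =>
    IsIntegral.prod _ fun j' _ => (X.chi_int _ _).sub (X.chi_int _ _)
  have hfgood : Good X f :=
    good_prod X T (fun j' j => X.chi j (K j') - X.chi j' (K j')) fun j' _ =>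
      good_sub X (good_chi X (K j')) (good_const X _ (X.chi_int _ _))
  have hf0 : ∀ j, j ∉ B0 X Q → f j = 0 := by
    intro j hj
    exact Finset.prod_eq_zero ((hTmem j).2 hj) (by simp)
  set c : ℂ := f X.o with hc
  have hcint : IsIntegral ℤ c := hfint X.o
  have hcQ : ¬ Q c := by
    refine nQ_prod hQ hp1 T _ (fun j' _ => (X.chi_int _ _).sub (X.chi_int _ _)) ?_
    intro j' hj' h2
    have h3 := Q_neg hQ h2
    rw [X.o_chi] at h3
    refine hK j' ((hTmem j').1 hj') ?_
    have h4 : -((X.d (K j') : ℂ) - X.chi j' (K j')) = X.chi j' (K j') - X.d (K j') := by ring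
    rw [h4] at h3
    exact h3
  have hfc : ∀ j, j ∈ B0 X Q → Q (f j - c) := by
    intro j hj
    refine Q_prod_sub hQ T _ _ (fun j' _ => (X.chi_int _ _).sub (X.chi_int _ _))
      (fun j' _ => (X.chi_int _ _).sub (X.chi_int _ _)) ?_
    intro j' _
    have h1 := (hB j).1 hj (K j')
    have h2 : X.chi j (K j') - X.chi j' (K j') - (X.chi X.o (K j') - X.chi j' (K j'))
        = X.chi j (K j') - X.d (K j') := by
      rw [X.o_chi]
      ring
    rw [h2]
    exact h1
  have hpw : ∀ j, ∃ (n : ℕ) (s : ℂ), j ∈ B0 X Q → (0 < n ∧ IsIntegral ℤ s ∧ ¬ Q s ∧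
      IsIntegral ℤ (s * (f j - c) ^ n / (p : ℂ) ^ 2)) := by
    intro j
    by_cases h : j ∈ B0 X Q
    · obtain ⟨n, s, h1⟩ := hQ.pw _ (hfc j h)
      exact ⟨n, s, fun _ => h1⟩
    · exact ⟨0, 0, fun h' => absurd h' h⟩
  choose n s hns using hpw
  set r : ℕ := ∑ j ∈ B0 X Q, n j with hr
  have hnr : ∀ j ∈ B0 X Q, n j ≤ r := fun j hj =>
    Finset.single_le_sum (f := n) (fun _ _ => Nat.zero_le _) hj
  have hcon : ∀ j l, IsIntegral ℤ (conj (X.s j l)) := by
    intro j l
    rw [X.conj_s]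
    exact X.s_int _ _
  -- the function `h`
  have hgood : Good X (fun j => c ^ r - (c - f j) ^ r) :=
    good_sub X (good_const X _ (hcint.pow r)) (good_pow X (good_sub X (good_const X _ hcint) hfgood) r)
  have hI0 := good_nhat X hgood i i'
  have hsum : ∑ j, conj (X.s j i) * (c ^ r - (c - f j) ^ r) * X.s j i'
      = ∑ j ∈ B0 X Q, conj (X.s j i) * (c ^ r - (c - f j) ^ r) * X.s j i' := by
    symm
    refine Finset.sum_subset (Finset.subset_univ _) ?_
    intro j _ hj
    rw [hf0 j hj]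
    simp
  rw [hsum] at hI0
  set σ : ℂ := ∏ j ∈ B0 X Q, s j with hσ
  have hσint : IsIntegral ℤ σ := IsIntegral.prod _ fun j hj => (hns j hj).2.1
  have hσQ : ¬ Q σ := nQ_prod hQ hp1 _ _ (fun j hj => (hns j hj).2.1) fun j hj => (hns j hj).2.2.1
  have hmint : IsIntegral ℤ ((X.m : ℕ) : ℂ) := by
    simpa using (isIntegral_algebraMap (R := ℤ) (A := ℂ) (x := (X.m : ℤ)))
  have hmQ : ¬ Q ((X.m : ℕ) : ℂ) := by
    intro h
    have h2 : Q (((X.m : ℕ) : ℤ) : ℂ) := by simpa using h
    have h3 := (hQ.int_iff _).1 h2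
    exact X.cop (by exact_mod_cast h3)
  -- `σ * (c - f j) ^ r / p ^ 2` is integral
  have hloc : ∀ j ∈ B0 X Q, IsIntegral ℤ (σ * (c - f j) ^ r / (p : ℂ) ^ 2) := by
    intro j hj
    obtain ⟨_, _, _, h4⟩ := hns j hj
    have h5 : σ * (c - f j) ^ r / (p : ℂ) ^ 2
        = (-1) ^ r * ((∏ l ∈ (B0 X Q).erase j, s l) * ((s j * (f j - c) ^ n j / (p : ℂ) ^ 2) *
          (f j - c) ^ (r - n j))) := by
      have h6 : σ = s j * ∏ l ∈ (B0 X Q).erase j, s l := by
        rw [hσ, Finset.mul_prod_erase _ _ hj]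
      have h7 : (c - f j) ^ r = (-1) ^ r * ((f j - c) ^ n j * (f j - c) ^ (r - n j)) := by
        rw [← pow_add, Nat.add_sub_cancel' (hnr j hj), ← mul_pow]
        congr 1
        ring
      rw [h6, h7]
      ring
    rw [h5]
    refine (isIntegral_one.neg.pow r).mul (IsIntegral.mul ?_ (h4.mul ?_))
    · exact IsIntegral.prod _ fun l hl => (hns l (Finset.mem_of_mem_erase hl)).2.1
    · exact ((hfint j).sub hcint).pow _
  refine ⟨σ * (X.m : ℂ) ^ 2 * c ^ r, (hσint.mul (hmint.pow 2)).mul (hcint.pow r), ?_, ?_⟩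
  · intro h
    rcases hQ.prime _ _ (hσint.mul (hmint.pow 2)) (hcint.pow r) h with h1 | h1
    · rcases hQ.prime _ _ hσint (hmint.pow 2) h1 with h2 | h2
      · exact hσQ h2
      · exact nQ_pow hQ hp1 hmint hmQ 2 h2
    · exact nQ_pow hQ hp1 hcint hcQ r h1
  · have h1 : σ * (X.m : ℂ) ^ 2 * c ^ r * (∑ j ∈ B0 X Q, conj (X.s j i) * X.s j i') / (p : ℂ) ^ 2
        = σ * ((X.m : ℂ) ^ 2 / (p : ℂ) ^ 2 *
          ∑ j ∈ B0 X Q, conj (X.s j i) * (c ^ r - (c - f j) ^ r) * X.s j i')
          + (X.m : ℂ) ^ 2 * ∑ j ∈ B0 X Q, (conj (X.s j i) * X.s j i') *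
            (σ * (c - f j) ^ r / (p : ℂ) ^ 2) := by
      have h2 : ∑ j ∈ B0 X Q, conj (X.s j i) * (c ^ r - (c - f j) ^ r) * X.s j i'
          = c ^ r * (∑ j ∈ B0 X Q, conj (X.s j i) * X.s j i')
            - ∑ j ∈ B0 X Q, (conj (X.s j i) * X.s j i') * (c - f j) ^ r := by
        rw [Finset.mul_sum, ← Finset.sum_sub_distrib]
        refine Finset.sum_congr rfl fun j _ => ?_
        ring
      have h3 : ∑ j ∈ B0 X Q, (conj (X.s j i) * X.s j i') * (σ * (c - f j) ^ r / (p : ℂ) ^ 2)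
          = σ / (p : ℂ) ^ 2 * ∑ j ∈ B0 X Q, (conj (X.s j i) * X.s j i') * (c - f j) ^ r := by
        rw [Finset.mul_sum]
        refine Finset.sum_congr rfl fun j _ => ?_
        ring
      rw [h2, h3]
      ring
    rw [h1]
    refine (hσint.mul hI0).add ((hmint.pow 2).mul (IsIntegral.sum _ fun j hj => ?_))
    exact ((hcon j i).mul (X.s_int j i')).mul (hloc j hj)

end Pool.Agent.Helper76.OS
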